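import Mathlib

set_option autoImplicit false

namespace Pool.Agent.H.MP_dcf9ac_co
open Finset

def rows : List ℕ := [2224, 84, 2058, 292, 1283, 521, 386, 1089, 2136, 3104, 656, 773]

def adj (a b : Fin 12) : Bool := (rows.getD a 0).testBit b

def G : SimpleGraph (Fin 12) where
  Adj a b := adj a b = true
  symm := ⟨by decide +kernel⟩
  loopless := ⟨by decide +kernel⟩

def L : List (Fin 12) := [0, 1, 2, 3, 4, 5, 6, 7, 8, 9, 10, 11]

theorem sumL (g : Fin 12 → ℕ) : (L.map g).sum = ∑ a, g a := by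
  simp [L, Fin.sum_univ_succ]

def c1 (f : Fin 12 → Bool) : ℕ := (L.map fun a => if f a then 1 else 0).sum

def c2 (f : Fin 12 → Bool) : ℕ :=
  (L.map fun a => if f a then (L.map fun b => if adj a b && f b then 1 else 0).sum else 0).sum

def ok (f : Fin 12 → Bool) : Bool :=
  (decide (c1 f < 3) || decide (c2 f + 6 < 4 * c1 f)) && (decide (c1 f ≠ 5) || decide (c2 f ≠ 0))

theorem key : ∀ b0 b1 b2 b3 b4 b5 b6 b7 b8 b9 b10 b11 : Bool, ok (fun i => [b0, b1, b2, b3, b4, b5, b6, b7, b8, b9, b10, b11].getD i.val false) = true := by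
  decide +kernel

theorem key' (f : Fin 12 → Bool) : ok f = true := by
  have := key (f 0) (f 1) (f 2) (f 3) (f 4) (f 5) (f 6) (f 7) (f 8) (f 9) (f 10) (f 11)
  have e : (fun i : Fin 12 => [f 0, f 1, f 2, f 3, f 4, f 5, f 6, f 7, f 8, f 9, f 10, f 11].getD i.val false) = f := by
    funext i
    fin_cases i <;> rfl
  rwa [e] at this

theorem c1_eq (S : Finset (Fin 12)) : c1 (fun i => decide (i ∈ S)) = S.card := by
  simp [c1, sumL]

theorem c2_eq (S : Finset (Fin 12)) : c2 (fun i => decide (i ∈ S)) =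
    ∑ a ∈ S, (S.filter (fun b => adj a b = true)).card := by
  simp only [c2, sumL, decide_eq_true_eq, Bool.and_eq_true, sum_ite_mem, univ_inter]
  refine sum_congr rfl fun a _ => ?_
  rw [← card_filter]
  congr 1
  ext b
  simp [and_comm]

theorem sparse (S : Finset (Fin 12)) (h : 3 ≤ S.card) :
    (∑ a ∈ S, (S.filter (fun b => adj a b = true)).card) + 6 < 4 * S.card := by
  have := key' (fun i => decide (i ∈ S))
  simp only [ok, c1_eq, c2_eq, Bool.and_eq_true, Bool.or_eq_true, decide_eq_true_eq] at this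
  omega

theorem indep (S : Finset (Fin 12)) (h : S.card = 5) : ∃ a ∈ S, ∃ b ∈ S, adj a b = true := by
  have := key' (fun i => decide (i ∈ S))
  simp only [ok, c1_eq, c2_eq, Bool.and_eq_true, Bool.or_eq_true, decide_eq_true_eq] at this
  obtain ⟨a, ha, h1⟩ := exists_ne_zero_of_sum_ne_zero (this.2.resolve_left (by omega))
  obtain ⟨b, hb⟩ := card_ne_zero.mp h1
  exact ⟨a, ha, b, mem_filter.mp hb⟩

theorem cliqueFree : Gᶜ.CliqueFree 5 := by
  intro S hS
  obtain ⟨a, ha, b, hb, h⟩ := indep S hS.card_eq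
  have hab : G.Adj a b := h
  exact (hS.isClique (mem_coe.mpr ha) (mem_coe.mpr hb) hab.ne).2 hab

theorem count (S : Finset (Fin 12)) (T : Finset (Fin 12 × Fin 12))
    (hT : ∀ p, p ∈ T ↔ p.1 ∈ S ∧ p.2 ∈ S ∧ G.Adj p.1 p.2) :
    T.card = ∑ a ∈ S, (S.filter (fun b => adj a b = true)).card := by
  rw [card_eq_sum_card_fiberwise (f := Prod.fst) (t := S) (fun p hp => ((hT p).mp hp).1)]
  refine sum_congr rfl fun a ha => ?_
  apply card_bij (fun p _ => p.2)
  · intro p hp
    obtain ⟨h1, rfl⟩ := mem_filter.mp hp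
    exact mem_filter.mpr ⟨((hT p).mp h1).2.1, ((hT p).mp h1).2.2⟩
  · intro p hp q hq h
    exact Prod.ext ((mem_filter.mp hp).2.trans (mem_filter.mp hq).2.symm) h
  · intro b hb
    exact ⟨(a, b), mem_filter.mpr ⟨(hT _).mpr ⟨ha, (mem_filter.mp hb).1, (mem_filter.mp hb).2⟩, rfl⟩, rfl⟩

end Pool.Agent.H.MP_dcf9ac_co
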